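import Pool.Agent.Lib.MP_967fd7_co.Sym.Assembly

/-!
Strong Schur log-concavity of the sequences `s_{λ + n α}`: for every partition `λ`, every integral
vector `α`, all `n ≥ 1` and all `i ≥ 0`.
-/

theorem Pool.Agent.Results.MP_967fd7_co.StrongLogConcavity.result
    (lam : YoungDiagram) (α : ℕ →₀ ℤ) (n i : ℕ) (hn : 1 ≤ n) :
    MP967.SchurPositive
      (MP967.schurZ (MP967.prog lam α n) * MP967.schurZ (MP967.prog lam α (n + i))
        - MP967.schurZ (MP967.prog lam α (n - 1)) *
          MP967.schurZ (MP967.prog lam α (n + i + 1))) :=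
  MP967.Sym.strong lam α n i hn
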